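import Pool.Agent.H71.CO.Targets

/-!
# Infinitely many points above and below (row ABV)
-/

set_option autoImplicit false

open Set

namespace Pool.Agent.H45.CO

open Pool.Agent.H71.CO

theorem abv_equiv {α β : Type} [Countable α] [Countable β] (h : ENat.card α = ENat.card β) :
    Nonempty (α ≃ β) := by
  have h1 : Cardinal.toENat (Cardinal.mk α) = Cardinal.toENat (Cardinal.mk β) := h
  have h2 : Cardinal.mk α = Cardinal.mk β :=
    Cardinal.toENat_injOn (Cardinal.mk_le_aleph0 (α := α)) (Cardinal.mk_le_aleph0 (α := β)) h1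
  exact Cardinal.eq.1 h2

/-- equal counts give a bijection which preserves the labels -/
theorem abv_bij {L : Type} (f g : ℕ → L)
    (h : ∀ l, {b | f b = l}.encard = {b | g b = l}.encard) :
    ∃ σ : ℕ ≃ ℕ, ∀ w, g (σ w) = f w := by
  have h1 : ∀ l, Nonempty ({b // f b = l} ≃ {b // g b = l}) := fun l => abv_equiv (h l)
  have e' : ∀ l, {b // f b = l} ≃ {b // g b = l} := fun l => (h1 l).some
  refine ⟨(Equiv.sigmaFiberEquiv f).symm.trans ((Equiv.sigmaCongrRight e').trans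
    (Equiv.sigmaFiberEquiv g)), fun w => ?_⟩
  exact (e' (f w) ⟨w, rfl⟩).2

theorem abv_side (P Q : Set ℕ) (R : ℕ → ℕ → Prop)
    (hU : ∀ a ∈ P, ∀ a' ∈ P, {b | R a b ∧ b ∈ Q}.encard = {b | R a' b ∧ b ∈ Q}.encard)
    (hD : ∀ b ∈ Q, ∀ b' ∈ Q, {a | R a b ∧ a ∈ P}.encard = {a | R a b' ∧ a ∈ P}.encard)
    (hn : ∀ a ∈ P, ∀ a' ∈ P, {b | R a b ∧ b ∈ Q} ⊆ {b | R a' b ∧ b ∈ Q} ∨
      {b | R a' b ∧ b ∈ Q} ⊆ {b | R a b ∧ b ∈ Q})
    (a0 b0 : ℕ) (ha0 : a0 ∈ P) (hb0 : b0 ∈ Q) (h0 : R a0 b0) (hQ : Q.Infinite) :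
    ∀ a ∈ P, {b | R a b ∧ b ∈ Q}.Infinite := by
  intro a ha hfin
  have hf : {b | R a b ∧ b ∈ Q}.Finite := hfin
  have hall : ∀ a' ∈ P, {b | R a' b ∧ b ∈ Q} = {b | R a b ∧ b ∈ Q} := by
    intro a' ha'
    have hc := hU a ha a' ha'
    have hf' : {b | R a' b ∧ b ∈ Q}.Finite := by
      rw [← Set.encard_lt_top_iff, ← hc]
      exact Set.encard_lt_top_iff.2 hf
    rcases hn a ha a' ha' with h1 | h1
    · exact (hf.eq_of_subset_of_encard_le h1 hc.symm.le).symm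
    · exact hf'.eq_of_subset_of_encard_le h1 hc.le
  obtain ⟨b, hbQ, hb⟩ := hQ.exists_notMem_finite hf
  have h1 : {a' | R a' b ∧ a' ∈ P} = ∅ := by
    apply Set.eq_empty_of_forall_notMem
    rintro a' ⟨h2, h3⟩
    apply hb
    rw [← hall a' h3]
    exact ⟨h2, hbQ⟩
  have h2 := hD b hbQ b0 hb0
  rw [h1, Set.encard_empty] at h2
  have h3 : {a' | R a' b0 ∧ a' ∈ P} = ∅ := Set.encard_eq_zero.1 h2.symm
  have h4 : a0 ∈ {a' | R a' b0 ∧ a' ∈ P} := ⟨h0, ha0⟩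
  rw [h3] at h4
  exact h4

theorem abv_up {L : Type} {s : ℕ → ℕ → L} {lt : ℕ → ℕ → Prop} (h : SO s lt) (b0 a a' : ℕ)
    (haa : s a a = s a' a') :
    {b | lt a b ∧ b ∈ Cls s b0}.encard = {b | lt a' b ∧ b ∈ Cls s b0}.encard := by
  obtain ⟨σ, hσ⟩ := abv_bij (s a) (s a') (h.stb.cnt a a' haa)
  have key : {b | lt a' b ∧ b ∈ Cls s b0} = σ '' {b | lt a b ∧ b ∈ Cls s b0} := by
    have hw : ∀ w, (lt a' (σ w) ∧ σ w ∈ Cls s b0) ↔ (lt a w ∧ w ∈ Cls s b0) := by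
      intro w
      have h1 := hσ w
      have h2 : s (σ w) (σ w) = s w w := h.stb.dg _ _ _ _ (h.stb.sw _ _ _ _ h1)
      have h3 := h.cmp _ _ _ _ h1
      have h4 : σ w ∈ Cls s b0 ↔ w ∈ Cls s b0 := by
        change s (σ w) (σ w) = s b0 b0 ↔ s w w = s b0 b0
        rw [h2]
      rw [h3, h4]
    ext b
    constructor
    · intro hb
      refine ⟨σ.symm b, ?_, σ.apply_symm_apply b⟩
      rw [Set.mem_ofPred_eq, ← hw, σ.apply_symm_apply]
      exact hb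
    · rintro ⟨w, hw', rfl⟩
      exact (hw w).2 hw'
  rw [key, σ.injective.injOn.encard_image]

theorem abv_dn {L : Type} {s : ℕ → ℕ → L} {lt : ℕ → ℕ → Prop} (h : SO s lt) (a0 b b' : ℕ)
    (hbb : s b b = s b' b') :
    {a | lt a b ∧ a ∈ Cls s a0}.encard = {a | lt a b' ∧ a ∈ Cls s a0}.encard := by
  obtain ⟨σ, hσ⟩ := abv_bij (s b) (s b') (h.stb.cnt b b' hbb)
  have key : {a | lt a b' ∧ a ∈ Cls s a0} = σ '' {a | lt a b ∧ a ∈ Cls s a0} := by
    have hw : ∀ w, (lt (σ w) b' ∧ σ w ∈ Cls s a0) ↔ (lt w b ∧ w ∈ Cls s a0) := by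
      intro w
      have h1 := h.stb.sw _ _ _ _ (hσ w)
      have h2 : s (σ w) (σ w) = s w w := h.stb.dg _ _ _ _ h1
      have h3 := h.cmp _ _ _ _ h1
      have h4 : σ w ∈ Cls s a0 ↔ w ∈ Cls s a0 := by
        change s (σ w) (σ w) = s a0 a0 ↔ s w w = s a0 a0
        rw [h2]
      rw [h3, h4]
    ext a
    constructor
    · intro hb
      refine ⟨σ.symm a, ?_, σ.apply_symm_apply a⟩
      rw [Set.mem_ofPred_eq, ← hw, σ.apply_symm_apply]
      exact hb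
    · rintro ⟨w, hw', rfl⟩
      exact (hw w).2 hw'
  rw [key, σ.injective.injOn.encard_image]

theorem pf_ABV : T_ABV := by
  intro L s lt h a0 b0 hab hP hQ
  have hU : ∀ a ∈ Cls s a0, ∀ a' ∈ Cls s a0,
      {b | lt a b ∧ b ∈ Cls s b0}.encard = {b | lt a' b ∧ b ∈ Cls s b0}.encard := by
    intro a ha a' ha'
    have h1 : s a a = s a0 a0 := ha
    have h2 : s a' a' = s a0 a0 := ha'
    exact abv_up h b0 a a' (h1.trans h2.symm)
  have hD : ∀ b ∈ Cls s b0, ∀ b' ∈ Cls s b0,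
      {a | lt a b ∧ a ∈ Cls s a0}.encard = {a | lt a b' ∧ a ∈ Cls s a0}.encard := by
    intro b hb b' hb'
    have h1 : s b b = s b0 b0 := hb
    have h2 : s b' b' = s b0 b0 := hb'
    exact abv_dn h a0 b b' (h1.trans h2.symm)
  have ha0 : a0 ∈ Cls s a0 := rfl
  have hb0 : b0 ∈ Cls s b0 := rfl
  constructor
  · refine abv_side (Cls s a0) (Cls s b0) lt hU hD ?_ a0 b0 ha0 hb0 hab hQ
    intro a _ a' _
    by_cases he : a = a'
    · subst he
      exact Or.inl subset_rfl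
    · rcases h.lin.tot a a' he with h1 | h1
      · right
        rintro b ⟨h2, h3⟩
        exact ⟨h.lin.tra _ _ _ h1 h2, h3⟩
      · left
        rintro b ⟨h2, h3⟩
        exact ⟨h.lin.tra _ _ _ h1 h2, h3⟩
  · refine abv_side (Cls s b0) (Cls s a0) (fun b a => lt a b) hD hU ?_ b0 a0 hb0 ha0 hab hP
    intro b _ b' _
    by_cases he : b = b'
    · subst he
      exact Or.inl subset_rfl
    · rcases h.lin.tot b b' he with h1 | h1
      · left
        rintro a ⟨h2, h3⟩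
        exact ⟨h.lin.tra _ _ _ h2 h1, h3⟩
      · right
        rintro a ⟨h2, h3⟩
        exact ⟨h.lin.tra _ _ _ h2 h1, h3⟩

end Pool.Agent.H45.CO
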